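import Pool.Agent.TH694.GP.Final2
import Pool.Agent.TH694.GP.Geo

/-!
# The globally rigid pinning problem is solvable in polynomial time

`NPC.PolyTime f`: the function `f` on bit strings is computed by a Turing machine in polynomial time
(Mathlib's `Turing.TM2ComputableInPolyTime`).  `NPC.bits`: the standard code of structured data as a
bit string; numbers are written in binary.  `adjMatrix G`: the adjacency matrix of a graph `G` on
`{0, ..., n-1}`, as the list of its rows, which are lists of Booleans.  `RigidInPlane G`: at every
generic realization the rank of the rigidity matrix of `G` is at least `min(n(n-1)/2, 2n-3)`.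

Outline of the proof.  Let the bodies be the vertex sets of the connected components of the rigidity
matroid of `G`, and let `b(Z)` be the sum of `2|B| - 3` over the bodies `B` which meet `Z`.  For
`|P| >= 4` the graph `G + K(P)` is 3-connected and redundantly rigid if and only if
(a) `b(Z) >= 2|Z| + 1` for all nonempty `Z ⊆ V - P`, and
(b) `P` meets every nonempty set `X` with at most two neighbours such that `X` and its neighbours are
not the whole vertex set.
Condition (a) says that the elements of `V - P` form a matching in a hypergraphic matroid.  For (b)
we prove an exchange property: if `X` is a minimal set as in (b) all of whose subsets satisfy the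
inequality in (a), and `F` is disjoint from `X`, then for every `r` in `X` some smallest solution
which contains `F` can be replaced by one of the same size which contains `F` and `r`.  So we collect
one element of such sets as long as there are any that are disjoint from the elements collected so
far, and then maximize the set `V - P` in (a) by matroid matching.
-/

namespace Pool.Agent.Results.MP_5d015b_lc.PinningInP

open Pool.Agent.NPC Pool.Agent.NPC.R671 Pool.Agent.H632R2.Cogirth

/-- `K(P)`: the complete graph on `P`, as a graph on `V`. -/
def K {V : Type} (P : Finset V) : SimpleGraph V :=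
  SimpleGraph.fromRel fun u v => u ∈ P ∧ v ∈ P

/-- At least four vertices, and the deletion of at most two vertices leaves a connected graph. -/
def ThreeConnected {n : ℕ} (G : SimpleGraph (Fin n)) : Prop :=
  4 ≤ n ∧ ∀ S : Finset (Fin n), S.card ≤ 2 → (G.induce {v | v ∉ S}).Connected

/-- Rigid, and still rigid after the deletion of any one edge. -/
def RedundantlyRigid {n : ℕ} (G : SimpleGraph (Fin n)) : Prop :=
  RigidInPlane G ∧ ∀ e ∈ G.edgeSet, RigidInPlane (G.deleteEdges {e})

/-- The combinatorial form of global rigidity in the plane: complete with at most three vertices, or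
3-connected and redundantly rigid. -/
def CombGloballyRigid {n : ℕ} (G : SimpleGraph (Fin n)) : Prop :=
  (n ≤ 3 ∧ G = ⊤) ∨ (ThreeConnected G ∧ RedundantlyRigid G)

/-- The geometric form: for all generic realizations `p` of `G` in the plane and all realizations
`q` such that all edges have the same lengths in `p` and in `q`, all pairs of vertices have the same
distances in `p` and in `q`. -/
def GloballyRigid {n : ℕ} (G : SimpleGraph (Fin n)) : Prop :=
  ∀ p : Fin n → EuclideanSpace ℝ (Fin 2),
    AlgebraicIndependent ℚ (fun c : Fin n × Fin 2 => p c.1 c.2) →
    ∀ q : Fin n → EuclideanSpace ℝ (Fin 2),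
      (∀ u v, G.Adj u v → dist (p u) (p v) = dist (q u) (q v)) →
      ∀ u v, dist (p u) (p v) = dist (q u) (q v)

open Classical in
/-- The pinning problem for a property `R` of graphs is solvable in polynomial time: some
polynomial-time algorithm decides, given a graph `G` and a number `k`, whether there is a set `P` of
at most `k` vertices such that `G + K(P)` has the property `R`; and some polynomial-time algorithm
outputs (the characteristic vector of) a smallest set `P` such that `G + K(P)` has the property
`R`. -/
def PinningInPolyTime (R : ∀ n : ℕ, SimpleGraph (Fin n) → Prop) : Prop :=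
  (∃ f : List Bool → List Bool, PolyTime f ∧
    ∀ (n : ℕ) (G : SimpleGraph (Fin n)) (k : ℕ),
      f (bits (adjMatrix G, k)) =
        bits (decide (∃ P : Finset (Fin n), P.card ≤ k ∧ R n (G ⊔ K P)))) ∧
  (∃ g : List Bool → List Bool, PolyTime g ∧
    ∀ (n : ℕ) (G : SimpleGraph (Fin n)), ∃ P : Finset (Fin n), R n (G ⊔ K P) ∧
      (∀ P' : Finset (Fin n), R n (G ⊔ K P') → P.card ≤ P'.card) ∧
      g (bits (adjMatrix G)) = bits (List.ofFn fun i => decide (i ∈ P)))

theorem comb_iff {n : ℕ} (G : SimpleGraph (Fin n)) :
    CombGloballyRigid G ↔ TH694.GP.CombGR G := by
  unfold CombGloballyRigid ThreeConnected RedundantlyRigid TH694.GP.CombGR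
  rw [and_assoc]

theorem comb_pinning : PinningInPolyTime (fun _ G => CombGloballyRigid G) := by
  classical
  constructor
  · refine ⟨fun x => bits ((unbits (List (List Bool) × ℕ) x).elim false
      (fun I => TH694.GP.decT I.1 I.2)), ?_, fun n G k => ?_⟩
    · apply polyTime_bits
      exact NPC.Poly.optElim (o := fun x => unbits (List (List Bool) × ℕ) x)
        (h := fun _ I => TH694.GP.decT I.1 I.2) poly_unbits (NPC.Poly.const false)
        (TH694.GP.poly_decT.comp (NPC.Poly.snd NPC.Poly.id))
    · simp only [unbits_bits, Option.elim]
      congr 1
      rw [Bool.eq_iff_iff, TH694.GP.decT_iff, decide_eq_true_eq]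
      exact exists_congr fun P => and_congr Iff.rfl (comb_iff _).symm
  · obtain ⟨g, hg, hspec⟩ := TH694.GP.search_graph
    refine ⟨fun x => bits ((unbits (List (List Bool)) x).elim [] g), ?_, fun n G => ?_⟩
    · apply polyTime_bits
      exact NPC.Poly.optElim (o := fun x => unbits (List (List Bool)) x) (h := fun _ I => g I)
        poly_unbits (NPC.Poly.const []) (hg.comp (NPC.Poly.snd NPC.Poly.id))
    · obtain ⟨P, h1, h2, h3⟩ := hspec n G
      refine ⟨P, (comb_iff _).2 h1, fun P' hP' => h2 P' ((comb_iff _).1 hP'), ?_⟩
      simp only [unbits_bits, Option.elim]
      rw [h3]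

/-- **The globally rigid pinning problem is solvable in polynomial time.**  The first part is about
the combinatorial form of global rigidity.  The second part is about the geometric form; its
hypothesis is the theorem of Connelly, Jackson and Jordán that for graphs with at least four vertices
the two forms agree. -/
theorem result :
    PinningInPolyTime (fun _ G => CombGloballyRigid G) ∧
    ((∀ n : ℕ, 4 ≤ n → ∀ G : SimpleGraph (Fin n),
        GloballyRigid G ↔ ThreeConnected G ∧ RedundantlyRigid G) →
      PinningInPolyTime (fun _ G => GloballyRigid G)) := by
  refine ⟨comb_pinning, fun hJJ => ?_⟩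
  have h : (fun (n : ℕ) (G : SimpleGraph (Fin n)) => GloballyRigid G) =
      fun (n : ℕ) (G : SimpleGraph (Fin n)) => CombGloballyRigid G := by
    funext n G
    apply propext
    unfold CombGloballyRigid
    by_cases hn : n ≤ 3
    · constructor
      · intro hG
        exact Or.inl ⟨hn, (TH694.GP.small_globallyRigid hn G).1 hG⟩
      · rintro (⟨-, hG⟩ | ⟨⟨h4, -⟩, -⟩)
        · exact (TH694.GP.small_globallyRigid hn G).2 hG
        · omega
    · constructor
      · intro hG
        exact Or.inr ((hJJ n (by omega) G).1 hG)
      · rintro (⟨h3, -⟩ | hG)
        · exact absurd h3 hn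
        · exact (hJJ n (by omega) G).2 hG
  rw [h]
  exact comb_pinning

end Pool.Agent.Results.MP_5d015b_lc.PinningInP
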